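import Pool.Agent.Helper36.RI.Goals

namespace Pool.Agent.Helper34.RI

open Set Filter Topology MeasureTheory Pool.Agent.Helper36.RS Pool.Agent.Helper73.RF
open Pool.Agent.Helper36.RI
open Pool.Agent.Helper47.RF hiding eps
open scoped ContDiff

theorem at1_sum {T : ℝ} (h6 : D6Stmt) {ι : Type} (s : Finset ι) (f : ι → (baC T).B) (t : ℝ) (x : HH)
    (h0 : 0 < t) (hT : t < T) (hx : x ≠ 0) :
    at1 (∑ i ∈ s, f i) t x = ∑ i ∈ s, at1 (f i) t x := by
  classical
  have hadd := (h6 T).2.2.1
  induction s using Finset.induction_on with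
  | empty =>
      have h := (hadd 0 0 t x h0 hT hx).2
      rw [add_zero] at h
      simp only [Finset.sum_empty]
      linarith
  | insert a s ha ih =>
      rw [Finset.sum_insert ha, Finset.sum_insert ha, (hadd _ _ t x h0 hT hx).2, ih]

theorem AT1 : G_AT1 := by
  intro h6 T A θ S0 f a t x h0 hT hx
  have hmul := fun f g => ((h6 T).2.2.1 f g t x h0 hT hx).1
  have hadd := fun f g => ((h6 T).2.2.1 f g t x h0 hT hx).2
  have hR := fun a b => (h6 T).2.2.2.1 a b t x h0 hT hx
  have hU := fun f k => (h6 T).2.2.2.2.1 f k t x h0 hT hx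
  have hE := fun f i => ((h6 T).2.1 f).2.2.1 i t x h0 hT hx
  have e1 : ((baC T).toFBD A θ S0).H a f = ∑ b, (baC T).R a b *
      ((∑ i, A b i * (baC T).E i f) + ∑ k, FR.om (baC T).E A θ b k * (baC T).U k f) := by
    show (∑ b, (baC T).R a b • (∑ i, A b i • (baC T).E i +
      ∑ k, FR.om (baC T).E A θ b k • (baC T).U k)) f = _
    simp only [Fin.sum_univ_three, Derivation.add_apply, Derivation.smul_apply, smul_eq_mul]
  rw [e1, at1_sum h6 _ _ t x h0 hT hx]
  have e2 : ∀ b, at1 ((baC T).R a b * ((∑ i, A b i * (baC T).E i f) +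
      ∑ k, FR.om (baC T).E A θ b k * (baC T).U k f)) t x = (if a = b then 1 else 0) *
      (∑ i, at1 (A b i) t x * E i (at1 f t) x -
        ∑ k, at1 (FR.om (baC T).E A θ b k) t x * at1 ((baC T).V k f) t x) := by
    intro b
    rw [hmul, hR, hadd, at1_sum h6 _ _ t x h0 hT hx, at1_sum h6 _ _ t x h0 hT hx]
    simp only [hmul, hE, hU]
    rw [sub_eq_add_neg, ← Finset.sum_neg_distrib]
    simp only [mul_neg]
  simp only [e2]
  simp

end Pool.Agent.Helper34.RI
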